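import Pool.Agent.X177.LA.Top

/-!
# Orbits of the automorphism group of an algebra are locally closed (helper177)
-/

set_option autoImplicit false

namespace Pool.Agent.X177.LA

open Set Filter Topology Pool.Agent.H581R2 Pool.Agent.TH729.SQ

/-- index type of the parameters -/
abbrev PP (ι : Type) := (ι × ι × ι) ⊕ ((ι × ι) ⊕ (ι ⊕ ι))

/-- index type of the quantified variables -/
abbrev KK (ι : Type) := (ι × ι) ⊕ (ι × ι)

section Mat

variable {ι : Type} [Fintype ι] [DecidableEq ι]

/-- the matrix form of `ψ x = y` for an automorphism `ψ` -/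
def Rel (X Y : Matrix ι ι ℝ) (L : ι → Matrix ι ι ℝ) (J : Matrix ι ι ℝ) (x y : ι → ℝ) : Prop :=
  X * Y = 1 ∧ X * J = J * X ∧ (∀ i, X * L i = ∑ p, X p i • (L p * X)) ∧ X.mulVec x = y

theorem rel_iff (X Y : Matrix ι ι ℝ) (L : ι → Matrix ι ι ℝ) (J : Matrix ι ι ℝ) (x y : ι → ℝ) :
    Rel X Y L J x y ↔ (∀ a : ι × ι, ∑ k, X a.1 k * Y k a.2 = (if a.1 = a.2 then 1 else 0)) ∧
      (∀ a : ι × ι, ∑ k, X a.1 k * J k a.2 = ∑ k, J a.1 k * X k a.2) ∧
      (∀ a : ι × ι × ι, ∑ k, X a.2.1 k * L a.1 k a.2.2 =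
        ∑ p, X p a.1 * ∑ k, L p a.2.1 k * X k a.2.2) ∧
      (∀ a : ι, ∑ k, X a k * x k = y a) := by
  unfold Rel
  refine and_congr ?_ (and_congr ?_ (and_congr ?_ ?_))
  · constructor
    · rintro h ⟨i, j⟩
      have := congrFun (congrFun h i) j
      simpa [Matrix.mul_apply, Matrix.one_apply] using this
    · intro h
      ext i j
      have := h (i, j)
      simpa [Matrix.mul_apply, Matrix.one_apply] using this
  · constructor
    · rintro h ⟨i, j⟩
      have := congrFun (congrFun h i) j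
      simpa [Matrix.mul_apply] using this
    · intro h
      ext i j
      have := h (i, j)
      simpa [Matrix.mul_apply] using this
  · constructor
    · rintro h ⟨i, j, l⟩
      have := congrFun (congrFun (h i) j) l
      simpa [Matrix.mul_apply, Matrix.sum_apply] using this
    · intro h i
      ext j l
      have := h (i, j, l)
      simpa [Matrix.mul_apply, Matrix.sum_apply] using this
  · constructor
    · rintro h i
      have := congrFun h i
      simpa [Matrix.mulVec, dotProduct] using this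
    · intro h
      ext i
      have := h i
      simpa [Matrix.mulVec, dotProduct] using this

theorem sap_rel : SAP (fun w : KK ι ⊕ PP ι → ℝ => Rel
    (fun i j => w (Sum.inl (Sum.inl (i, j)))) (fun i j => w (Sum.inl (Sum.inr (i, j))))
    (fun i j k => w (Sum.inr (Sum.inl (i, j, k)))) (fun i j => w (Sum.inr (Sum.inr (Sum.inl (i, j)))))
    (fun i => w (Sum.inr (Sum.inr (Sum.inr (Sum.inl i)))))
    (fun i => w (Sum.inr (Sum.inr (Sum.inr (Sum.inr i)))))) := by
  refine SAP.congr (SAP.and ?_ (SAP.and ?_ (SAP.and ?_ ?_))) fun w => rel_iff _ _ _ _ _ _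
  · refine SAP.forall_fin fun a => SAP.eq (PF.sum _ fun k _ => (PF.coord _).mul (PF.coord _)) ?_
    split_ifs
    · exact PF.one
    · exact PF.zero
  · exact SAP.forall_fin fun a => SAP.eq (PF.sum _ fun k _ => (PF.coord _).mul (PF.coord _))
      (PF.sum _ fun k _ => (PF.coord _).mul (PF.coord _))
  · exact SAP.forall_fin fun a => SAP.eq (PF.sum _ fun k _ => (PF.coord _).mul (PF.coord _))
      (PF.sum _ fun k _ => (PF.coord _).mul (PF.sum _ fun k _ => (PF.coord _).mul (PF.coord _)))
  · exact SAP.forall_fin fun a => SAP.eq (PF.sum _ fun k _ => (PF.coord _).mul (PF.coord _))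
      (PF.coord _)

/-- the parameter point -/
def pt (L : ι → Matrix ι ι ℝ) (J : Matrix ι ι ℝ) (x y : ι → ℝ) : PP ι → ℝ :=
  Sum.elim (fun a => L a.1 a.2.1 a.2.2) (Sum.elim (fun a => J a.1 a.2) (Sum.elim x y))

/-- the semialgebraic predicate -/
def Pred (v : PP ι → ℝ) : Prop := ∃ X Y : Matrix ι ι ℝ, Rel X Y
    (fun i j k => v (Sum.inl (i, j, k))) (fun i j => v (Sum.inr (Sum.inl (i, j))))
    (fun i => v (Sum.inr (Sum.inr (Sum.inl i)))) (fun i => v (Sum.inr (Sum.inr (Sum.inr i))))

theorem sap_pred : SAP (Pred (ι := ι)) := by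
  refine SAP.congr (SAP.exists_fun (KK ι) (PP ι) _ sap_rel) fun v => ?_
  constructor
  · rintro ⟨X, Y, h⟩
    exact ⟨Sum.elim (fun a => X a.1 a.2) (fun a => Y a.1 a.2), h⟩
  · rintro ⟨u, h⟩
    exact ⟨fun i j => u (Sum.inl (i, j)), fun i j => u (Sum.inr (i, j)), h⟩

theorem pred_pt (L : ι → Matrix ι ι ℝ) (J : Matrix ι ι ℝ) (x y : ι → ℝ) :
    Pred (pt L J x y) ↔ ∃ X Y : Matrix ι ι ℝ, Rel X Y L J x y := Iff.rfl

end Mat

section Alg

variable {𝕜 A : Type*} [RCLike 𝕜] [NormedAddCommGroup A] [NormedSpace 𝕜 A]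

/-- `ψ` is an automorphism of the algebra with product `mul`. -/
def Aut' (mul : A →ₗ[𝕜] A →ₗ[𝕜] A) (ψ : A ≃ₗ[𝕜] A) : Prop :=
  ∀ a b, ψ (mul a b) = mul (ψ a) (ψ b)

/-- the orbit -/
def Orb (mul : A →ₗ[𝕜] A →ₗ[𝕜] A) (x : A) : Set A := {y | ∃ ψ : A ≃ₗ[𝕜] A, Aut' mul ψ ∧ ψ x = y}

variable [NormedSpace ℝ A] [IsScalarTower ℝ 𝕜 A] [FiniteDimensional ℝ A]

/-- multiplication by `i` -/
noncomputable def Jmap (𝕜 A : Type*) [RCLike 𝕜] [NormedAddCommGroup A] [NormedSpace 𝕜 A]
    [NormedSpace ℝ A] [IsScalarTower ℝ 𝕜 A] : A →ₗ[ℝ] A :=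
  ((RCLike.I : 𝕜) • (LinearMap.id : A →ₗ[𝕜] A)).restrictScalars ℝ

omit [FiniteDimensional ℝ A] in
theorem Jmap_apply (a : A) : Jmap 𝕜 A a = (RCLike.I : 𝕜) • a := rfl

theorem orb_iff {ι : Type} [Fintype ι] [DecidableEq ι] (b : Module.Basis ι ℝ A)
    (mul : A →ₗ[𝕜] A →ₗ[𝕜] A) (x y : A) :
    y ∈ Orb mul x ↔ Pred (pt (fun i => LinearMap.toMatrix b b ((mul (b i)).restrictScalars ℝ))
      (LinearMap.toMatrix b b (Jmap 𝕜 A)) (b.repr x) (b.repr y)) := by
  rw [pred_pt]
  constructor
  · rintro ⟨ψ, hψ, rfl⟩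
    set f : A →ₗ[ℝ] A := (ψ : A →ₗ[𝕜] A).restrictScalars ℝ with hf
    set g : A →ₗ[ℝ] A := (ψ.symm : A →ₗ[𝕜] A).restrictScalars ℝ with hg
    refine ⟨LinearMap.toMatrix b b f, LinearMap.toMatrix b b g, ?_, ?_, ?_, ?_⟩
    · rw [← LinearMap.toMatrix_comp]
      have : f ∘ₗ g = LinearMap.id := by
        ext a
        simp [hf, hg]
      rw [this, LinearMap.toMatrix_id]
    · rw [← LinearMap.toMatrix_comp, ← LinearMap.toMatrix_comp]
      congr 1
      ext a
      simp [hf, Jmap_apply]
    · intro i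
      rw [← LinearMap.toMatrix_comp b b b]
      simp only [← LinearMap.toMatrix_comp b b b, ← map_smul, ← map_sum]
      congr 1
      ext a
      have e1 : ψ (b i) = ∑ p, LinearMap.toMatrix b b f p i • b p := by
        have := b.sum_repr (f (b i))
        simp only [LinearMap.toMatrix_apply]
        exact this.symm
      simp only [LinearMap.comp_apply, LinearMap.sum_apply, LinearMap.smul_apply,
        LinearMap.restrictScalars_apply]
      show ψ (mul (b i) a) = _
      rw [hψ, e1, map_sum, LinearMap.sum_apply]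
      refine Finset.sum_congr rfl fun p _ => ?_
      exact LinearMap.congr_fun (LinearMap.map_smul_of_tower mul _ _) _
    · exact LinearMap.toMatrix_mulVec_repr b b f x
  · rintro ⟨X, Y, h1, h2, h3, h4⟩
    obtain ⟨f, rfl⟩ := (LinearMap.toMatrix b b).surjective X
    obtain ⟨g, rfl⟩ := (LinearMap.toMatrix b b).surjective Y
    have hfg : f ∘ₗ g = LinearMap.id := by
      apply (LinearMap.toMatrix b b).injective
      rw [LinearMap.toMatrix_comp b b b, h1, LinearMap.toMatrix_id]
    have hJ : f ∘ₗ Jmap 𝕜 A = Jmap 𝕜 A ∘ₗ f := by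
      apply (LinearMap.toMatrix b b).injective
      rw [LinearMap.toMatrix_comp b b b, LinearMap.toMatrix_comp b b b, h2]
    have hm : ∀ i, f ∘ₗ ((mul (b i)).restrictScalars ℝ) =
        ∑ p, LinearMap.toMatrix b b f p i • (((mul (b p)).restrictScalars ℝ) ∘ₗ f) := by
      intro i
      apply (LinearMap.toMatrix b b).injective
      rw [LinearMap.toMatrix_comp b b b, h3, map_sum]
      refine Finset.sum_congr rfl fun p _ => ?_
      rw [map_smul, LinearMap.toMatrix_comp b b b]
    have hsurj : Function.Surjective f := fun a => ⟨g a, LinearMap.congr_fun hfg a⟩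
    have hinj : Function.Injective f := LinearMap.injective_iff_surjective.2 hsurj
    have hlin : ∀ (z : 𝕜) (a : A), f (z • a) = z • f a := by
      intro z a
      have e : ∀ c : A, z • c = (RCLike.re z) • c + (RCLike.im z) • ((RCLike.I : 𝕜) • c) := by
        intro c
        conv_lhs => rw [← RCLike.re_add_im z, add_smul, mul_smul]
        rw [← RCLike.real_smul_eq_coe_smul, ← RCLike.real_smul_eq_coe_smul]
      have e2 : f ((RCLike.I : 𝕜) • a) = (RCLike.I : 𝕜) • f a := LinearMap.congr_fun hJ a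
      rw [e, map_add, map_smul, map_smul, e2, ← e]
    have hmul : ∀ a c, f (mul a c) = mul (f a) (f c) := by
      intro a c
      have e : f ∘ₗ ((mul.flip c).restrictScalars ℝ) =
          ((mul.flip (f c)).restrictScalars ℝ) ∘ₗ f := by
        refine b.ext fun i => ?_
        have e1 : f (b i) = ∑ p, LinearMap.toMatrix b b f p i • b p := by
          have := b.sum_repr (f (b i))
          simp only [LinearMap.toMatrix_apply]
          exact this.symm
        have e2 := LinearMap.congr_fun (hm i) c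
        simp only [LinearMap.comp_apply, LinearMap.restrictScalars_apply, LinearMap.flip_apply,
          LinearMap.sum_apply, LinearMap.smul_apply] at e2 ⊢
        rw [e2, e1, map_sum, LinearMap.sum_apply]
        refine Finset.sum_congr rfl fun p _ => ?_
        have e3 : ∀ (r : ℝ) (u w : A), mul (r • u) w = r • mul u w := fun r u w =>
          LinearMap.congr_fun (LinearMap.map_smul_of_tower mul r u) w
        exact (e3 _ _ _).symm
      exact LinearMap.congr_fun e a
    let F : A →ₗ[𝕜] A := { toFun := f, map_add' := map_add f, map_smul' := hlin }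
    refine ⟨LinearEquiv.ofBijective F ⟨hinj, hsurj⟩, fun a c => hmul a c, ?_⟩
    show f x = y
    apply b.repr.injective
    apply DFunLike.coe_injective
    rw [← h4]
    exact (LinearMap.toMatrix_mulVec_repr b b f x).symm

theorem orb_open_part (mul : A →ₗ[𝕜] A →ₗ[𝕜] A) (x : A) :
    ∃ U : Set A, IsOpen U ∧ (U ∩ Orb mul x).Nonempty ∧ U ∩ closure (Orb mul x) ⊆ Orb mul x := by
  classical
  let b := Module.finBasis ℝ A
  have key : Orb mul x = {y | Pred (pt (fun i => LinearMap.toMatrix b b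
      ((mul (b i)).restrictScalars ℝ)) (LinearMap.toMatrix b b (Jmap 𝕜 A)) (b.repr x)
      (b.repr y))} := by
    ext y
    exact orb_iff b mul x y
  have hne : (Orb mul x).Nonempty := ⟨x, LinearEquiv.refl 𝕜 A, fun _ _ => rfl, rfl⟩
  rw [key] at hne ⊢
  refine open_part_sap sap_pred (ψ := fun y => pt (fun i => LinearMap.toMatrix b b
      ((mul (b i)).restrictScalars ℝ)) (LinearMap.toMatrix b b (Jmap 𝕜 A)) (b.repr x)
      (b.repr y)) ?_ hne
  rintro (a | a | a | a)
  · exact continuous_const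
  · exact continuous_const
  · exact continuous_const
  · exact (LinearMap.continuous_of_finiteDimensional (b.coord a))

end Alg

end Pool.Agent.X177.LA
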