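import Pool.Agent.TH729.SQ.Tools

/-!
# Finite unions of locally closed sets, semialgebraic sets (helper177)
-/

set_option autoImplicit false

namespace Pool.Agent.X177.LA

open Set Filter Topology Pool.Agent.H581R2

variable {X : Type*} [TopologicalSpace X]

/-- A nonempty finite union of locally closed sets contains a nonempty relatively open part of
its closure. -/
theorem open_part {α : Type*} (s : Finset α) (L : α → Set X) (hL : ∀ i ∈ s, IsLocallyClosed (L i)) :
    (⋃ i ∈ s, L i).Nonempty → ∃ U : Set X, IsOpen U ∧ (U ∩ ⋃ i ∈ s, L i).Nonempty ∧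
      U ∩ closure (⋃ i ∈ s, L i) ⊆ ⋃ i ∈ s, L i := by
  classical
  induction s using Finset.induction_on with
  | empty =>
    intro h
    simp at h
  | insert a s ha ih =>
    intro h
    rw [Finset.set_biUnion_insert] at h ⊢
    set T : Set X := ⋃ i ∈ s, L i with hT
    obtain ⟨U, C, hU, hC, hLa⟩ := hL a (by simp)
    by_cases hTe : T.Nonempty
    · obtain ⟨V, hV, hVT, hVc⟩ := ih (fun i hi => hL i (by simp [hi])) hTe
      by_cases hW : ((V \ closure (L a)) ∩ T).Nonempty
      · refine ⟨V \ closure (L a), hV.sdiff isClosed_closure, ?_, ?_⟩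
        · obtain ⟨y, hy, hyT⟩ := hW
          exact ⟨y, hy, Or.inr hyT⟩
        · rintro y ⟨⟨hyV, hyL⟩, hyc⟩
          rw [closure_union] at hyc
          rcases hyc with hyc | hyc
          · exact absurd hyc hyL
          · exact Or.inr (hVc ⟨hyV, hyc⟩)
      · obtain ⟨y, hyV, hyT⟩ := hVT
        have hy : y ∈ closure (L a) := by
          by_contra hcon
          exact hW ⟨y, ⟨hyV, hcon⟩, hyT⟩
        obtain ⟨z, hzV, hzL⟩ := mem_closure_iff.1 hy V hV hyV
        refine ⟨V ∩ U, hV.inter hU, ?_, ?_⟩
        · exact ⟨z, ⟨hzV, by rw [hLa] at hzL; exact hzL.1⟩, Or.inl hzL⟩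
        · rintro y ⟨⟨hyV, hyU⟩, hyc⟩
          rw [closure_union] at hyc
          rcases hyc with hyc | hyc
          · left
            rw [hLa]
            refine ⟨hyU, ?_⟩
            have : closure (L a) ⊆ C := by
              rw [hLa]
              exact hC.closure_subset_iff.2 inter_subset_right
            exact this hyc
          · exact Or.inr (hVc ⟨hyV, hyc⟩)
    · rw [Set.not_nonempty_iff_eq_empty] at hTe
      rw [hTe, union_empty] at h ⊢
      refine ⟨U, hU, ?_, ?_⟩
      · obtain ⟨y, hy⟩ := h
        exact ⟨y, by rw [hLa] at hy; exact hy.1, hy⟩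
      · rintro y ⟨hyU, hyc⟩
        rw [hLa]
        refine ⟨hyU, ?_⟩
        have : closure (L a) ⊆ C := by
          rw [hLa]
          exact hC.closure_subset_iff.2 inter_subset_right
        exact this hyc

theorem lc_sign {f : X → ℝ} (hf : Continuous f) (s : SignType) :
    IsLocallyClosed {x | SignType.sign (f x) = s} := by
  cases s with
  | zero =>
    have : {x | SignType.sign (f x) = SignType.zero} = {x | f x = 0} := by
      ext x
      exact sign_eq_zero_iff
    rw [this]
    exact (isClosed_eq hf continuous_const).isLocallyClosed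
  | neg =>
    have : {x | SignType.sign (f x) = SignType.neg} = {x | f x < 0} := by
      ext x
      exact sign_eq_neg_one_iff
    rw [this]
    exact (isOpen_lt hf continuous_const).isLocallyClosed
  | pos =>
    have : {x | SignType.sign (f x) = SignType.pos} = {x | 0 < f x} := by
      ext x
      exact sign_eq_one_iff
    rw [this]
    exact (isOpen_lt continuous_const hf).isLocallyClosed

theorem lc_biInter {α : Type*} (s : Finset α) {L : α → Set X} (hL : ∀ i ∈ s, IsLocallyClosed (L i)) :
    IsLocallyClosed (⋂ i ∈ s, L i) := by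
  classical
  induction s using Finset.induction_on with
  | empty => simpa using isClosed_univ.isLocallyClosed
  | insert a s ha ih =>
    rw [Finset.set_biInter_insert]
    exact (hL a (by simp)).inter (ih fun i hi => hL i (by simp [hi]))

theorem continuous_aeval {ι : Type} {ψ : X → ι → ℝ} (hψ : ∀ i, Continuous fun x => ψ x i)
    (q : MvPolynomial ι ℚ) : Continuous fun x => MvPolynomial.aeval (ψ x) q := by
  induction q using MvPolynomial.induction_on with
  | C a => simpa using continuous_const
  | add p q hp hq =>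
    simp only [map_add]
    exact hp.add hq
  | mul_X p i hp =>
    simp only [map_mul, MvPolynomial.aeval_X]
    exact hp.mul (hψ i)

/-- A nonempty preimage of a semialgebraic set under a continuous map contains a nonempty
relatively open part of its closure. -/
theorem open_part_sap {ι : Type} {p : (ι → ℝ) → Prop} (hp : SAP p) {ψ : X → ι → ℝ}
    (hψ : ∀ i, Continuous fun x => ψ x i) (hne : {x | p (ψ x)}.Nonempty) :
    ∃ U : Set X, IsOpen U ∧ (U ∩ {x | p (ψ x)}).Nonempty ∧
      U ∩ closure {x | p (ψ x)} ⊆ {x | p (ψ x)} := by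
  classical
  obtain ⟨Q, hQ⟩ := SA.iff hp
  let Good : ({q // q ∈ Q} → SignType) → Prop := fun σ =>
    ∃ v, p v ∧ ∀ q : {q // q ∈ Q}, SignType.sign (MvPolynomial.aeval v q.1) = σ q
  have key : {x | p (ψ x)} = ⋃ σ ∈ (Finset.univ.filter Good : Finset ({q // q ∈ Q} → SignType)),
      ⋂ q ∈ (Finset.univ : Finset {q // q ∈ Q}),
      {x | SignType.sign (MvPolynomial.aeval (ψ x) q.1) = σ q} := by
    ext x
    simp only [mem_iUnion, mem_iInter]
    constructor
    · intro h
      refine ⟨fun q => SignType.sign (MvPolynomial.aeval (ψ x) q.1), ?_, fun q _ => rfl⟩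
      rw [Finset.mem_filter]
      exact ⟨Finset.mem_univ _, ψ x, h, fun q => rfl⟩
    · rintro ⟨σ, hσ0, h⟩
      rw [Finset.mem_filter] at hσ0
      obtain ⟨_, v, hv, hσ⟩ := hσ0
      refine (hQ v (ψ x) fun q hq => ?_).1 hv
      exact (hσ ⟨q, hq⟩).trans (h ⟨q, hq⟩ (Finset.mem_univ _)).symm
  rw [key] at hne ⊢
  exact open_part _ _ (fun σ _ => lc_biInter _ fun q _ => lc_sign (continuous_aeval hψ q.1) _) hne

end Pool.Agent.X177.LA
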